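import Pool.Agent.P8H90.AP.Defs

/-!
# Project AP (MP_48b3e2_nt), package DS: Galois descent to the theorem of Siegel and Shidlovskii over `ℚ`
-/

set_option autoImplicit false

open PowerSeries

namespace Pool.Agent.P8H43.AP

open Pool.Agent.R352.E
open Pool.Agent.Y113
open Pool.Agent.P8H90.AP

section
variable {K : Type} [Field K] [NumberField K]

lemma mp_inj : Function.Injective (PowerSeries.map (algebraMap ℚ K)) :=
  PowerSeries.map_injective _ (algebraMap ℚ K).injective

variable (K) in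
/-- coefficientwise inclusion as a `ℚ`-linear map -/
noncomputable def mpL : ℚ⟦X⟧ →ₗ[ℚ] K⟦X⟧ where
  toFun f := PowerSeries.map (algebraMap ℚ K) f
  map_add' f g := map_add _ f g
  map_smul' r f := by
    ext m
    rw [coeff_map, coeff_smul, RingHom.id_apply, smul_eq_mul, map_mul]
    rw [show (r • PowerSeries.map (algebraMap ℚ K) f) = C (algebraMap ℚ K r) * PowerSeries.map (algebraMap ℚ K) f by
      rw [Algebra.smul_def, PowerSeries.algebraMap_apply], coeff_C_mul, coeff_map]

lemma mpL_apply (f : ℚ⟦X⟧) : mpL K f = PowerSeries.map (algebraMap ℚ K) f := rfl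

/-- the coefficientwise normalised trace -/
noncomputable def T (f : K⟦X⟧) : ℚ⟦X⟧ :=
  PowerSeries.mk fun m => ((Module.finrank ℚ K : ℕ) : ℚ)⁻¹ * Algebra.trace ℚ K (coeff m f)

lemma T_add (f g : K⟦X⟧) : T (f + g) = T f + T g := by
  ext m
  simp [T, mul_add]

lemma T_X_mul (f : K⟦X⟧) : T (X * f) = X * T f := by
  ext m
  cases m with
  | zero => simp [T]
  | succ m => simp [T, coeff_succ_X_mul]

lemma T_map (f : ℚ⟦X⟧) : T (PowerSeries.map (algebraMap ℚ K) f) = f := by
  ext m
  have h : ((Module.finrank ℚ K : ℕ) : ℚ) ≠ 0 := by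
    exact_mod_cast (Module.finrank_pos (R := ℚ) (M := K)).ne'
  rw [T, coeff_mk, coeff_map, Algebra.trace_algebraMap, nsmul_eq_mul, ← mul_assoc, inv_mul_cancel₀ h, one_mul]

lemma map_T [IsGalois ℚ K] (f : K⟦X⟧) : PowerSeries.map (algebraMap ℚ K) (T f) =
    ((Module.finrank ℚ K : ℕ) : K)⁻¹ • ∑ σ : K ≃ₐ[ℚ] K, PowerSeries.map (σ : K →+* K) f := by
  ext m
  rw [coeff_map, T, coeff_mk, map_mul, trace_eq_sum_automorphisms, coeff_smul, map_sum, map_inv₀, map_natCast,
    smul_eq_mul]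
  rfl

lemma T_mem [IsGalois ℚ K] {V : Submodule K K⟦X⟧} (hG : ∀ σ : K ≃ₐ[ℚ] K, ∀ y ∈ V, PowerSeries.map (σ : K →+* K) y ∈ V)
    {f : K⟦X⟧} (hf : f ∈ V) : PowerSeries.map (algebraMap ℚ K) (T f) ∈ V := by
  rw [map_T]
  exact V.smul_mem _ (V.sum_mem fun σ _ => hG σ f hf)

lemma d_map (f : ℚ⟦X⟧) : d⁄dX K (PowerSeries.map (algebraMap ℚ K) f) =
    PowerSeries.map (algebraMap ℚ K) (d⁄dX ℚ f) := by
  ext m
  simp [coeff_derivative]

/-- series which are linearly independent over `ℚ` stay linearly independent over `K` -/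
lemma li_K {N : ℕ} {Y : Fin N → ℚ⟦X⟧} (hY : LinearIndependent ℚ Y) :
    LinearIndependent K (fun i => PowerSeries.map (algebraMap ℚ K) (Y i)) := by
  rw [Fintype.linearIndependent_iff] at hY ⊢
  intro c hc i
  rw [← Module.forall_dual_apply_eq_zero_iff ℚ]
  intro φ
  refine hY (fun i => φ (c i)) ?_ i
  ext m
  have h1 := congrArg (coeff m) hc
  rw [map_sum, map_zero] at h1
  have h2 := congrArg φ h1
  rw [map_sum, map_zero] at h2
  rw [map_sum, map_zero, ← h2]
  refine Finset.sum_congr rfl fun i _ => ?_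
  simp only [coeff_smul, coeff_map, smul_eq_mul]
  rw [mul_comm (c i), ← Algebra.smul_def, map_smul, smul_eq_mul, mul_comm]

/-- linear independence over `K[X]` of the images gives linear independence over `ℚ[X]` -/
lemma li_Q {N : ℕ} {Y : Fin N → ℚ⟦X⟧}
    (hY : LinearIndependent (Polynomial K) (fun i => PowerSeries.map (algebraMap ℚ K) (Y i))) :
    LinearIndependent (Polynomial ℚ) Y := by
  rw [Fintype.linearIndependent_iff] at hY ⊢
  intro P hP i
  have h1 := hY (fun i => (P i).map (algebraMap ℚ K)) (by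
    have h2 := congrArg (PowerSeries.map (algebraMap ℚ K)) hP
    rw [map_sum, map_zero] at h2
    rw [← h2]
    refine Finset.sum_congr rfl fun j _ => ?_
    rw [Algebra.smul_def, Algebra.smul_def, map_mul]
    congr 1
    ext m
    rw [coeff_map, PowerSeries.algebraMap_apply', PowerSeries.algebraMap_apply']
    simp) i
  exact (Polynomial.map_eq_zero _).1 h1

/-- an E-function over `K` with rational coefficients is an E-function -/
lemma ef_of_efk (ι : K →+* ℂ) (y₀ : ℚ⟦X⟧) (h : EFK ι (PowerSeries.map (algebraMap ℚ K) y₀)) : EF y₀ := by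
  obtain ⟨C, hC, h1, h2⟩ := h
  refine ⟨C, hC, fun m => ?_, fun m => ?_⟩
  · have h3 := h1 m
    have h4 : (m.factorial : K) * coeff m (PowerSeries.map (algebraMap ℚ K) y₀) = algebraMap ℚ K (cf m y₀) := by
      rw [coeff_map, cf, map_mul, map_natCast]
    rw [h4] at h3
    have h5 : ι (algebraMap ℚ K (cf m y₀)) = ((cf m y₀ : ℚ) : ℂ) := by
      rw [eq_ratCast, map_ratCast]
    rw [h5, ← Complex.ofReal_ratCast, Complex.norm_real, Real.norm_eq_abs] at h3
    exact h3
  · obtain ⟨d, hd, hdC, hi⟩ := h2 m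
    refine ⟨d, hd, hdC, fun j hj => ?_⟩
    have h3 := hi j hj
    have h4 : (d : K) * ((j.factorial : K) * coeff j (PowerSeries.map (algebraMap ℚ K) y₀)) =
        algebraMap ℚ K ((d : ℚ) * cf j y₀) := by
      rw [coeff_map, cf, map_mul, map_mul, map_natCast, map_natCast]
    rw [h4, isIntegral_algebraMap_iff (algebraMap ℚ K).injective] at h3
    obtain ⟨a, ha⟩ := IsIntegrallyClosed.isIntegral_iff.1 h3
    exact ⟨a, by rw [← ha]; rfl⟩

/-- a common denominator of finitely many rational numbers -/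
lemma common_den {τ : Type} [Fintype τ] (A : τ → ℚ) : ∃ q : ℕ, 1 ≤ q ∧ ∀ i, ∃ z : ℤ, (z : ℚ) = q * A i := by
  classical
  refine ⟨∏ i, (A i).den, Nat.one_le_iff_ne_zero.2 (Finset.prod_ne_zero_iff.2 fun i _ => (A i).den_nz), fun i => ?_⟩
  refine ⟨(∏ j ∈ Finset.univ.erase i, ((A j).den : ℤ)) * (A i).num, ?_⟩
  rw [← Finset.mul_prod_erase Finset.univ _ (Finset.mem_univ i)]
  push_cast
  have h1 : ((A i).num : ℚ) = (A i).den * A i := (Rat.den_mul_eq_num (A i)).symm
  rw [h1]
  ring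

end

theorem ds : S_DS := by
  intro K _ _ _ ι V hfin h1 hG hD hLI hE y₀ hy₀ hy₀V hev
  -- the rational structure
  set W : Submodule ℚ ℚ⟦X⟧ := (V.restrictScalars ℚ).comap (mpL K) with hW
  have hmem : ∀ f : ℚ⟦X⟧, f ∈ W ↔ PowerSeries.map (algebraMap ℚ K) f ∈ V := fun f => Iff.rfl
  have : Module.Finite ℚ V := Module.Finite.trans K V
  have : Module.Finite ℚ W := by
    let φ : W →ₗ[ℚ] (V.restrictScalars ℚ) := (mpL K).restrict (p := W) (q := V.restrictScalars ℚ) (fun f hf => hf)
    have : Module.Finite ℚ (V.restrictScalars ℚ) := this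
    refine Module.Finite.of_injective φ ?_
    intro a b hab
    have h2 := congrArg Subtype.val hab
    exact Subtype.ext (mp_inj h2)
  have hone : (1 : ℚ⟦X⟧) ∈ W := by
    rw [hmem, map_one]; exact h1
  -- a basis which contains 1
  have hli : LinearIndepOn ℚ id ({⟨1, hone⟩} : Set W) := by
    refine LinearIndepOn.singleton ?_
    intro h
    have := congrArg Subtype.val h
    exact one_ne_zero this
  let b₀ := Module.Basis.extend hli
  have : Finite (hli.extend (Set.subset_univ _)) := Module.Finite.finite_basis b₀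
  obtain ⟨N, ⟨e⟩⟩ := Finite.exists_equiv_fin (hli.extend (Set.subset_univ _))
  let b := b₀.reindex e
  let i₀ : Fin N := e ⟨⟨1, hone⟩, Module.Basis.subset_extend hli (Set.mem_singleton _)⟩
  set Y : Fin N → ℚ⟦X⟧ := fun i => (b i : ℚ⟦X⟧) with hY
  have hYi : Y i₀ = 1 := by
    simp only [hY, b, i₀, Module.Basis.reindex_apply, Equiv.symm_apply_apply, b₀, Module.Basis.extend_apply_self]
  have hYW : ∀ i, Y i ∈ W := fun i => (b i).2
  have hYV : ∀ i, PowerSeries.map (algebraMap ℚ K) (Y i) ∈ V := fun i => (hmem _).1 (hYW i)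
  have hYli : LinearIndependent ℚ Y := by
    have := b.linearIndependent.map' W.subtype (Submodule.ker_subtype _)
    exact this
  have hrep : ∀ f ∈ W, ∃ r : Fin N → ℚ, f = ∑ i, C (r i) * Y i := by
    intro f hf
    refine ⟨fun i => b.repr ⟨f, hf⟩ i, ?_⟩
    have h2 := congrArg Subtype.val (b.sum_repr ⟨f, hf⟩)
    refine h2.symm.trans ?_
    simp only [Submodule.coe_sum, Submodule.coe_smul, hY]
    refine Finset.sum_congr rfl fun i _ => ?_
    ext m
    simp
  have hYliP : LinearIndependent (Polynomial ℚ) Y :=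
    li_Q (K := K) (hLI N _ hYV (li_K hYli))
  -- the differential system
  have hder : ∀ i, ∃ A B : Fin N → ℚ, X * d⁄dX ℚ (Y i) = ∑ j, (C (A j) + C (B j) * X) * Y j := by
    intro i
    obtain ⟨a, ha, c, hc, hac⟩ := hD _ (hYV i)
    have h2 : X * d⁄dX ℚ (Y i) = T a + X * T c := by
      rw [← T_X_mul, ← T_add, ← hac, d_map]
      have : (X : K⟦X⟧) = PowerSeries.map (algebraMap ℚ K) X := by
        rw [PowerSeries.map_X]
      rw [this, ← map_mul, T_map]
    obtain ⟨A, hA⟩ := hrep (T a) (T_mem hG ha)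
    obtain ⟨B, hB⟩ := hrep (T c) (T_mem hG hc)
    refine ⟨A, B, ?_⟩
    rw [h2, hA, hB, Finset.mul_sum, ← Finset.sum_add_distrib]
    refine Finset.sum_congr rfl fun j _ => ?_
    ring
  choose A B hAB using hder
  obtain ⟨q, hq, hqz⟩ := common_den (fun p : Bool × Fin N × Fin N => if p.1 then A p.2.1 p.2.2 else B p.2.1 p.2.2)
  have hqA : ∀ i j, ∃ z : ℤ, (z : ℚ) = q * A i j := fun i j => by simpa using hqz (true, i, j)
  have hqB : ∀ i j, ∃ z : ℤ, (z : ℚ) = q * B i j := fun i j => by simpa using hqz (false, i, j)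
  choose zA hzA using hqA
  choose zB hzB using hqB
  have hEF : ∀ i, EF (Y i) := fun i => ef_of_efk ι _ (hE _ (hYV i))
  obtain ⟨C₀, hC1, hsize, hden⟩ := EF.common hEF
  have hSys : ESys q C₀ Y := by
    refine ⟨hC1, hq, hsize, hden, fun i j => Polynomial.C (zA i j) + Polynomial.C (zB i j) * Polynomial.X, fun i => ?_⟩
    have h2 : (TQ q : ℚ⟦X⟧) * d⁄dX ℚ (Y i) = C (q : ℚ) * (X * d⁄dX ℚ (Y i)) := by
      rw [TQ, Polynomial.coe_mul, Polynomial.coe_C, Polynomial.coe_X, mul_assoc]
    rw [h2, hAB, Finset.mul_sum]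
    refine Finset.sum_congr rfl fun j _ => ?_
    rw [ps, ← mul_assoc]
    congr 1
    rw [Polynomial.map_add, Polynomial.map_mul, Polynomial.map_C, Polynomial.map_C, Polynomial.map_X, Polynomial.coe_add,
      Polynomial.coe_mul, Polynomial.coe_C, Polynomial.coe_C, Polynomial.coe_X]
    simp only [eq_intCast, hzA, hzB, map_mul]
    ring
  have hfin2 := E_lin hSys i₀ hYi hYliP
  rw [Fintype.linearIndependent_iff] at hfin2
  obtain ⟨r, hr⟩ := hrep y₀ ((hmem _).2 hy₀V)
  have hr0 := hfin2 r (by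
    rw [← hev, hr, Cv.ev_sum one_pos _ _ (fun j _ => (Cv.C _).mul one_pos (hEF j).cv)]
    refine Finset.sum_congr rfl fun j _ => ?_
    rw [(Cv.C _).ev_mul one_pos (hEF j).cv, ev_C, Rat.smul_def])
  refine hy₀ ?_
  rw [hr]
  exact Finset.sum_eq_zero fun i _ => by rw [hr0 i, map_zero, zero_mul]

end Pool.Agent.P8H43.AP
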